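import Pool.Agent.Q85.VL.Defs
import Pool.Agent.Q128.CC.Ana

/-!
# VL-10: analytic continuation along the surface of a cube
-/

set_option autoImplicit false

namespace Pool.Agent.Q71.VL

open MeasureTheory Set Metric
open scoped ContDiff
open H459R3.NS Pool.Agent.W268.NS Pool.Agent.Q67.VD Pool.Agent.Q85.CC Pool.Agent.Q85.CL
open Pool.Agent.Q85.VL Pool.Agent.Q128.CC

theorem dd_iter_sq2 (d : V) (n : ℕ) : ∀ (f : V → ℝ), ContDiff ℝ ∞ f → ∀ y,
    ((dd d)^[n] f y) ^ 2 ≤ (d ⬝ᵥ d) ^ n * SQ n f y := by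
  have hdd : 0 ≤ d ⬝ᵥ d := by
    rw [dot3]
    nlinarith [sq_nonneg (d 0), sq_nonneg (d 1), sq_nonneg (d 2)]
  induction n with
  | zero =>
    intro f _ y
    rw [pow_zero, one_mul]
    exact le_refl _
  | succ n ih =>
    intro f hf y
    have h1 : (dd d)^[n + 1] f y = ∑ i, d i * (dd d)^[n] (pd i f) y := by
      rw [Function.iterate_succ_apply]
      exact congrFun (dd_iter_lin d n (fun i => pd i f) fun i => pd_smooth' hf i) y
    rw [h1]
    refine (Finset.sum_mul_sq_le_sq_mul_sq Finset.univ (fun i => d i)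
      (fun i => (dd d)^[n] (pd i f) y)).trans ?_
    have h2 : ∑ i, d i ^ 2 = d ⬝ᵥ d := by
      unfold dotProduct
      exact Finset.sum_congr rfl fun i _ => sq (d i)
    rw [h2, pow_succ', mul_assoc]
    refine mul_le_mul_of_nonneg_left ?_ hdd
    have h3 : SQ (n + 1) f y = ∑ i, SQ n (pd i f) y := rfl
    rw [h3, Finset.mul_sum]
    exact Finset.sum_le_sum fun i _ => ih (pd i f) (pd_smooth' hf i) y

/-- the derivatives along a segment -/
noncomputable def cs (f : V → ℝ) (p u : V) (r : ℝ) (n : ℕ) (t : ℝ) : ℝ :=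
  r ^ 2 * (dd u)^[n] f (p + t • u)

theorem cs_chain {f : V → ℝ} (hf : ContDiff ℝ ∞ f) (p u : V) (r : ℝ) : Chain (cs f p u r) := by
  intro n t
  unfold cs
  have h1 := (line_deriv (dd_iter_smooth hf u n) p u 1 t).const_mul (r ^ 2)
  simp only [one_mul] at h1
  rw [Function.iterate_succ_apply']
  exact h1

/-- two points of a common face of the cube -/
def Fc (x : V) (s : ℝ) (p p' : V) : Prop :=
  ‖p - x‖ ≤ s ∧ ‖p' - x‖ ≤ s ∧ ∃ l, p l = p' l ∧ |p l - x l| = s

theorem Fc.seg {x : V} {s : ℝ} {p p' : V} (h : Fc x s p p') (hs : 0 ≤ s) {t : ℝ} (ht : t ∈ Icc (0 : ℝ) 1) :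
    ‖p + t • (p' - p) - x‖ = s := by
  obtain ⟨h1, h2, l, h3, h4⟩ := h
  apply le_antisymm
  · have e : p + t • (p' - p) - x = (1 - t) • (p - x) + t • (p' - x) := by
      rw [sub_smul, one_smul, smul_sub, smul_sub, smul_sub]
      abel
    rw [e]
    refine (norm_add_le _ _).trans ?_
    rw [norm_smul, norm_smul, Real.norm_eq_abs, Real.norm_eq_abs, abs_of_nonneg ht.1,
      abs_of_nonneg (by linarith [ht.2] : (0 : ℝ) ≤ 1 - t)]
    have e1 := mul_le_mul_of_nonneg_left h1 (by linarith [ht.2] : (0 : ℝ) ≤ 1 - t)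
    have e2 := mul_le_mul_of_nonneg_left h2 ht.1
    linarith
  · rw [← h4]
    have e : (p + t • (p' - p) - x) l = p l - x l := by
      simp only [Pi.sub_apply, Pi.add_apply, Pi.smul_apply, smul_eq_mul, h3]
      ring
    rw [← e]
    exact abs_coord_le _ l

/-- one step -/
theorem stepS (c h b ε : ℝ) (hc : 1 ≤ c) (hh : 0 < h) (hb : 0 < b) (hbh : b ≤ h) (hb1 : b ≤ 1)
    (hε : 0 < ε) : ∃ β : ℝ, 0 < β ∧ ∀ (v : V → V) (x p p' : V) (r s : ℝ), SM v → 0 < r → 0 ≤ s →
      s ≤ r / 32 → (∀ y, ‖y - x‖ = s → Gd c (h * r) v y) → Fc x s p p' →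
      (∀ i j, Idx i j → ∀ y ∈ closedBall p (b * r), r ^ 2 * |cur i j v y| ≤ β) →
      ∀ i j, Idx i j → ∀ y ∈ closedBall p' (b / 4 * r), r ^ 2 * |cur i j v y| ≤ ε := by
  obtain ⟨β, hβ, hcont⟩ := cont (c / h ^ 2) (c / h) (b / 2) 1 (by positivity)
    (by positivity) (by positivity) (by linarith) ε hε
  refine ⟨β, hβ, ?_⟩
  intro v x p p' r s hv hr hs0 hs hG hF hβ' i j hij q hq
  rw [mem_closedBall, dist_eq_norm] at hq
  have hf := cur_smooth hv i j
  set u : V := p' - p with hu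
  set P : V := p + (q - p') with hP
  have hun : ‖u‖ ≤ r / 16 := by
    have e : u = (p' - x) - (p - x) := by rw [hu]; abel
    rw [e]
    refine (norm_sub_le _ _).trans ?_
    linarith [hF.1, hF.2.1]
  have huu : u ⬝ᵥ u ≤ r ^ 2 := by
    refine (dot_self_le u).trans ?_
    have := pow_le_pow_left₀ (norm_nonneg u) hun 2
    nlinarith [sq_nonneg r]
  have huu0 : 0 ≤ u ⬝ᵥ u := by
    rw [dot3]
    nlinarith [sq_nonneg (u 0), sq_nonneg (u 1), sq_nonneg (u 2)]
  have key := hcont (cs (cur i j v) P u r) (cs_chain hf P u r) (fun n t ht => ?_)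
    (fun t ht => ?_) 1 ⟨zero_le_one, le_refl _⟩
  · unfold cs at key
    have e : P + (1 : ℝ) • u = q := by
      rw [one_smul, hP, hu]
      abel
    rw [e] at key
    simp only [Function.iterate_zero, id_eq] at key
    rw [abs_mul, abs_of_nonneg (sq_nonneg r)] at key
    exact key
  · -- the bounds
    have h2 : Gd c (h * r) v (p + t • u) := hG _ (hF.seg hs0 ht)
    have h3 : P + t • u ∈ ball (p + t • u) (h * r) := by
      rw [mem_ball, dist_eq_norm]
      have e : P + t • u - (p + t • u) = q - p' := by rw [hP]; abel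
      rw [e]
      refine lt_of_le_of_lt hq ?_
      have : b * r ≤ h * r := mul_le_mul_of_nonneg_right hbh hr.le
      have : 0 < b * r := by positivity
      linarith
    have h4 := h2 _ h3 n i j
    have h5 := dd_iter_sq2 u n (cur i j v) hf (P + t • u)
    have h6 : ((dd u)^[n] (cur i j v) (P + t • u)) ^ 2 ≤
        (r ^ n * (c ^ (n + 1) * n.factorial / (h * r) ^ (n + 2))) ^ 2 := by
      refine h5.trans ?_
      rw [mul_pow]
      refine mul_le_mul ?_ h4 ?_ (by positivity)
      · rw [← pow_mul, mul_comm n 2, pow_mul]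
        exact pow_le_pow_left₀ huu0 huu n
      · -- SQ nonneg
        have : ∀ (n : ℕ) (g : V → ℝ) (y : V), 0 ≤ SQ n g y := by
          intro n
          induction n with
          | zero => exact fun g y => sq_nonneg _
          | succ n ih => exact fun g y => Finset.sum_nonneg fun k _ => ih _ _
        exact this _ _ _
    have h7 : |(dd u)^[n] (cur i j v) (P + t • u)| ≤
        r ^ n * (c ^ (n + 1) * n.factorial / (h * r) ^ (n + 2)) :=
      abs_le_of_sq_le_sq h6 (by positivity)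
    unfold cs
    rw [abs_mul, abs_of_nonneg (sq_nonneg r)]
    refine (mul_le_mul_of_nonneg_left h7 (sq_nonneg r)).trans (le_of_eq ?_)
    rw [mul_pow, div_pow]
    field_simp
    ring
  · unfold cs
    simp only [Function.iterate_zero, id_eq]
    rw [abs_mul, abs_of_nonneg (sq_nonneg r)]
    refine hβ' i j hij _ ?_
    rw [mem_closedBall, dist_eq_norm]
    have e : P + t • u - p = (q - p') + t • u := by rw [hP]; abel
    rw [e]
    refine (norm_add_le _ _).trans ?_
    rw [norm_smul, Real.norm_eq_abs, abs_of_nonneg ht.1]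
    have h8 : t * ‖u‖ ≤ b / 2 * (r / 16) := mul_le_mul ht.2 hun (norm_nonneg _) (by positivity)
    have : 0 < b * r := by positivity
    linarith

/-- the start: from the integral to the pointwise bound -/
theorem startS (c h b : ℝ) (hc : 1 ≤ c) (hh : 0 < h) (hb : 0 < b) :
    ∃ b₀ : ℝ, 0 < b₀ ∧ b₀ ≤ h ∧ b₀ ≤ 1 ∧ ∀ β : ℝ, 0 < β → ∃ τ : ℝ, 0 < τ ∧
      ∀ (v : V → V) (z : V) (r : ℝ), SM v → 0 < r →
      Gd c (h * r) v z → ∫ y in closedBall z (b * r), om v y ≤ τ * r →
      ∀ i j, Idx i j → ∀ y ∈ closedBall z (b₀ * r), r ^ 2 * |cur i j v y| ≤ β := by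
  obtain ⟨b₀, hb₀⟩ : ∃ b₀ : ℝ, b₀ = min (b / 2) (min (h / 4) (1 / 2)) := ⟨_, rfl⟩
  have hc1 : b₀ ≤ b / 2 := by rw [hb₀]; exact min_le_left _ _
  have hc2 : b₀ ≤ h / 4 := by rw [hb₀]; exact (min_le_right _ _).trans (min_le_left _ _)
  have hc3 : b₀ ≤ 1 / 2 := by rw [hb₀]; exact (min_le_right _ _).trans (min_le_right _ _)
  have hc0 : 0 < b₀ := by
    rw [hb₀]
    exact lt_min (by positivity) (lt_min (by positivity) (by norm_num))
  refine ⟨b₀, hc0, by linarith, by linarith, ?_⟩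
  intro β hβ
  obtain ⟨δ, hδ⟩ : ∃ δ : ℝ, δ = min b₀ (β * h ^ 3 / (6 * c ^ 2)) := ⟨_, rfl⟩
  have hdb : δ ≤ b₀ := by rw [hδ]; exact min_le_left _ _
  have hd1 : δ ≤ b / 2 := hdb.trans hc1
  have hd2 : δ ≤ h / 4 := hdb.trans hc2
  have hd4 : δ ≤ β * h ^ 3 / (6 * c ^ 2) := by
    rw [hδ]
    exact min_le_right _ _
  have hd0 : 0 < δ := by
    rw [hδ]
    exact lt_min hc0 (by positivity)
  refine ⟨2 * β * δ ^ 3, by positivity, ?_⟩
  intro v z r hv hr hG hint i j hij y hy
  by_contra hcon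
  push Not at hcon
  rw [mem_closedBall, dist_eq_norm] at hy
  have hb4 : b₀ * r ≤ h / 4 * r := mul_le_mul_of_nonneg_right hc2 hr.le
  have hhr : 0 < h * r := by positivity
  have hyb : y ∈ ball z (h * r) := by
    rw [mem_ball, dist_eq_norm]
    linarith
  have hE : ∀ q ∈ closedBall y (δ * r), β / (2 * r ^ 2) ≤ om v q := by
    intro q hq
    rw [mem_closedBall, dist_eq_norm] at hq
    have hqb : q ∈ ball z (h * r) := by
      rw [mem_ball, dist_eq_norm]
      have h1 : q - z = (q - y) + (y - z) := by abel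
      rw [h1]
      refine lt_of_le_of_lt (norm_add_le _ _) ?_
      have : δ * r ≤ h / 4 * r := mul_le_mul_of_nonneg_right hd2 hr.le
      linarith
    have h1 := cur_lip hv hc (by positivity) hG hyb hqb i j
    have h2 : 3 * (c ^ 2 / (h * r) ^ 3) * ‖q - y‖ ≤ β / (2 * r ^ 2) := by
      calc 3 * (c ^ 2 / (h * r) ^ 3) * ‖q - y‖ ≤ 3 * (c ^ 2 / (h * r) ^ 3) * (δ * r) :=
            mul_le_mul_of_nonneg_left hq (by positivity)
        _ = 3 * c ^ 2 / (h ^ 3 * r ^ 2) * δ := by
            field_simp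
        _ ≤ 3 * c ^ 2 / (h ^ 3 * r ^ 2) * (β * h ^ 3 / (6 * c ^ 2)) :=
            mul_le_mul_of_nonneg_left hd4 (by positivity)
        _ = β / (2 * r ^ 2) := by
            field_simp
            ring
    have h3 : β / r ^ 2 < |cur i j v y| := by
      rw [div_lt_iff₀ (by positivity)]
      linarith
    have h4 := abs_sub_abs_le_abs_sub (cur i j v y) (cur i j v q)
    rw [abs_sub_comm] at h4
    have h5 := cur_le_om v q hij
    have h6 : β / r ^ 2 = 2 * (β / (2 * r ^ 2)) := by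
      field_simp
    linarith
  have hsub : closedBall y (δ * r) ⊆ closedBall z (b * r) := by
    intro q hq
    rw [mem_closedBall, dist_eq_norm] at hq ⊢
    have h1 : q - z = (q - y) + (y - z) := by abel
    rw [h1]
    refine (norm_add_le _ _).trans ?_
    have : δ * r ≤ b / 2 * r := mul_le_mul_of_nonneg_right hd1 hr.le
    have : b₀ * r ≤ b / 2 * r := mul_le_mul_of_nonneg_right hc1 hr.le
    linarith
  have hcont := om_cont' hv
  have hInt : IntegrableOn (om v) (closedBall z (b * r)) :=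
    hcont.continuousOn.integrableOn_compact (isCompact_closedBall _ _)
  have h1 : ∫ q in closedBall y (δ * r), om v q ≤ ∫ q in closedBall z (b * r), om v q :=
    setIntegral_mono_set hInt (Filter.Eventually.of_forall fun q => om_nonneg' v q)
      (Filter.Eventually.of_forall hsub)
  have hfin : volume (closedBall y (δ * r)) ≠ ⊤ := measure_closedBall_lt_top.ne
  have hvol : (volume (closedBall y (δ * r))).toReal = (2 * (δ * r)) ^ 3 := by
    rw [Real.volume_pi_closedBall y (by positivity), ENNReal.toReal_ofReal (by positivity)]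
    simp
  have h2 : β / (2 * r ^ 2) * (2 * (δ * r)) ^ 3 ≤ ∫ q in closedBall y (δ * r), om v q := by
    have h3 : ∫ _ in closedBall y (δ * r), β / (2 * r ^ 2) ≤ ∫ q in closedBall y (δ * r), om v q :=
      setIntegral_mono_on (integrableOn_const hfin) (hInt.mono_set hsub)
        isClosed_closedBall.measurableSet hE
    rw [setIntegral_const, smul_eq_mul] at h3
    simp only [Measure.real] at h3
    rw [hvol, mul_comm] at h3
    exact h3
  have h4 : β / (2 * r ^ 2) * (2 * (δ * r)) ^ 3 = 4 * β * δ ^ 3 * r := by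
    field_simp
    ring
  rw [h4] at h2
  have h5 : 0 < β * δ ^ 3 * r := by positivity
  linarith

/-- on the surface of the cube some coordinate is extremal -/
theorem exists_coord {y x : V} {s : ℝ} (h : ‖y - x‖ = s) : ∃ i, |y i - x i| = s := by
  by_contra hcon
  push Not at hcon
  have h1 : ∀ i, |y i - x i| < s := fun i =>
    lt_of_le_of_ne (by rw [← h]; exact abs_coord_le (y - x) i) (hcon i)
  have h2 : ‖y - x‖ < s := by
    have hs : 0 < s := lt_of_le_of_lt (abs_nonneg _) (h1 0)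
    rw [pi_norm_lt_iff hs]
    intro i
    rw [Real.norm_eq_abs]
    exact h1 i
  linarith

theorem third (i j : Fin 3) : ∃ k : Fin 3, k ≠ i ∧ k ≠ j := by
  revert i j
  decide

theorem norm_update_le {y x : V} {s : ℝ} (h : ‖y - x‖ ≤ s) (k : Fin 3) :
    ‖Function.update y k (x k + s) - x‖ ≤ s := by
  have hs : 0 ≤ s := (norm_nonneg _).trans h
  rw [pi_norm_le_iff_of_nonneg hs]
  intro i
  rw [Real.norm_eq_abs, Pi.sub_apply]
  by_cases hik : i = k
  · subst hik
    rw [Function.update_self]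
    rw [add_sub_cancel_left, abs_of_nonneg hs]
  · rw [Function.update_of_ne hik]
    exact (abs_coord_le (y - x) i).trans h

/-- **VL-10.** -/
theorem anaS : StmAnaS := by
  intro c h ε b hc hh hh1 hε hb
  obtain ⟨b₀, hb0, hbh, hb1, hstart⟩ := startS c h b hc hh hb
  have hb40 : 0 < b₀ / 4 := by positivity
  have hb160 : 0 < b₀ / 4 / 4 := by positivity
  obtain ⟨β₃, hβ₃, hst3⟩ := stepS c h (b₀ / 4 / 4) (ε / 3) hc hh hb160 (by linarith) (by linarith)
    (by positivity)
  obtain ⟨β₂, hβ₂, hst2⟩ := stepS c h (b₀ / 4) β₃ hc hh hb40 (by linarith) (by linarith) hβ₃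
  obtain ⟨β₁, hβ₁, hst1⟩ := stepS c h b₀ β₂ hc hh hb0 hbh hb1 hβ₂
  obtain ⟨τ, hτ, hst0⟩ := hstart β₁ hβ₁
  obtain ⟨w, hw⟩ : ∃ w : ℝ, w = min (b₀ / 4 / 4 / 4) (1 / 128) := ⟨_, rfl⟩
  have hw1 : w ≤ b₀ / 4 / 4 / 4 := by rw [hw]; exact min_le_left _ _
  have hw2 : w ≤ 1 / 128 := by rw [hw]; exact min_le_right _ _
  have hw0 : 0 < w := by
    rw [hw]
    exact lt_min (by positivity) (by norm_num)
  refine ⟨τ, w, hτ, hw0, by linarith, ?_⟩
  intro v x z r s hv hr hs1 hs2 hG hz hint y hy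
  have hs0 : 0 < s := by linarith
  have hwr : w * r ≤ 1 / 128 * r := mul_le_mul_of_nonneg_right hw2 hr.le
  have hd0 : 0 < ‖y - x‖ := by
    have := (abs_le.1 hy).1
    linarith
  -- the projection of `y` to the surface
  obtain ⟨p, hp⟩ : ∃ p : V, p = x + (s / ‖y - x‖) • (y - x) := ⟨_, rfl⟩
  have hpx : ‖p - x‖ = s := by
    rw [hp, add_sub_cancel_left, norm_smul, Real.norm_eq_abs, abs_of_nonneg (by positivity)]
    field_simp
  have hyp : ‖y - p‖ ≤ b₀ / 4 / 4 / 4 * r := by
    have e : y - p = (1 - s / ‖y - x‖) • (y - x) := by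
      rw [hp, sub_smul, one_smul]
      abel
    rw [e, norm_smul, Real.norm_eq_abs]
    have e2 : |1 - s / ‖y - x‖| * ‖y - x‖ = |‖y - x‖ - s| := by
      have e3 : ‖y - x‖ - s = (1 - s / ‖y - x‖) * ‖y - x‖ := by
        field_simp
      rw [e3, abs_mul, abs_of_pos hd0]
    rw [e2]
    refine hy.trans (mul_le_mul_of_nonneg_right hw1 hr.le)
  obtain ⟨i, hi⟩ := exists_coord hz
  obtain ⟨j, hj⟩ := exists_coord hpx
  obtain ⟨k, hki, hkj⟩ := third i j
  have hF1 : Fc x s z (Function.update z k (x k + s)) := by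
    refine ⟨hz.le, norm_update_le hz.le k, i, ?_, hi⟩
    rw [Function.update_of_ne hki.symm]
  have hF2 : Fc x s (Function.update z k (x k + s)) (Function.update p k (x k + s)) := by
    refine ⟨norm_update_le hz.le k, norm_update_le hpx.le k, k, ?_, ?_⟩
    · rw [Function.update_self, Function.update_self]
    · rw [Function.update_self, add_sub_cancel_left, abs_of_pos hs0]
  have hF3 : Fc x s (Function.update p k (x k + s)) p := by
    refine ⟨norm_update_le hpx.le k, hpx.le, j, ?_, ?_⟩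
    · rw [Function.update_of_ne hkj.symm]
    · rw [Function.update_of_ne hkj.symm, hj]
  have k0 := hst0 v z r hv hr (hG z hz) hint
  have k1 := hst1 v x z _ r s hv hr hs0.le hs2 hG hF1 k0
  have k2 := hst2 v x _ _ r s hv hr hs0.le hs2 hG hF2 k1
  have k3 := hst3 v x _ _ r s hv hr hs0.le hs2 hG hF3 k2
  have hkey : ∀ i j, Idx i j → |cur i j v y| ≤ ε / (3 * r ^ 2) := by
    intro i j hij
    have h1 := k3 i j hij y (by rw [mem_closedBall, dist_eq_norm]; exact hyp)
    rw [le_div_iff₀ (by positivity)]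
    linarith
  have h1 := om_le_sum v y (ε / (3 * r ^ 2)) (hkey 1 2 (Or.inl ⟨rfl, rfl⟩))
    (hkey 2 0 (Or.inr (Or.inl ⟨rfl, rfl⟩))) (hkey 0 1 (Or.inr (Or.inr ⟨rfl, rfl⟩)))
  refine h1.trans (le_of_eq ?_)
  field_simp

end Pool.Agent.Q71.VL
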